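import Mathlib
import Pool.Agent.V11177.RigidTree

namespace Pool.Agent.Results.MP_c76eb3_co.ShiftedRigid

open Pool.Agent.V11177.RigidTree Function

/-- number of cells of the tableau in row `i` -/
def row (l : List (ℕ × ℕ)) (i : ℕ) : ℕ := l.countP (fun c => c.1 = i)

/-- the shifted cells -/
abbrev K : ℕ × ℕ → Prop := fun c => c.1 ≤ c.2

theorem row_cons (c : ℕ × ℕ) (l : List (ℕ × ℕ)) (i : ℕ) :
    row (c :: l) i = row l i + if c.1 = i then 1 else 0 := by
  unfold row
  rw [List.countP_cons]
  simp

theorem mem_iff (l : List (ℕ × ℕ)) (h : IsTab K l) :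
    (∀ c : ℕ × ℕ, c ∈ l ↔ c.1 ≤ c.2 ∧ c.2 < c.1 + row l c.1) := by
  induction l with
  | nil =>
    intro c
    simp only [List.not_mem_nil, row, List.countP_nil, false_iff]
    omega
  | cons c0 l ih =>
    obtain ⟨h1, h2, h3, h4⟩ := h
    have ih := ih h1
    have h2' : c0.1 ≤ c0.2 := h2
    have hr : c0.1 + row l c0.1 = c0.2 := by
      apply le_antisymm
      · by_contra hcon
        exact h3 ((ih c0).2 ⟨h2, by omega⟩)
      · rcases Nat.lt_or_ge c0.1 c0.2 with h0 | h0
        · have := (ih (c0.1, c0.2 - 1)).1 (h4 _ (Prod.mk_le_mk.2 ⟨le_rfl, by omega⟩)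
            (show c0.1 ≤ c0.2 - 1 by omega)
            (fun h => by have := congrArg Prod.snd h; simp at this; omega))
          have := this.2
          simp only at this
          omega
        · omega
    intro c
    rw [List.mem_cons, row_cons]
    constructor
    · rintro (rfl | h)
      · refine ⟨h2', ?_⟩
        rw [if_pos rfl]; omega
      · have := (ih c).1 h
        exact ⟨this.1, by omega⟩
    · rintro ⟨h5, h6⟩
      by_cases h7 : c0.1 = c.1
      · rw [if_pos h7] at h6
        rw [← h7] at h6
        rcases Nat.lt_or_ge c.2 c0.2 with h8 | h8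
        · right
          apply (ih c).2
          rw [← h7]; exact ⟨by omega, by omega⟩
        · left
          apply Prod.ext h7.symm
          omega
      · rw [if_neg h7] at h6
        right
        exact (ih c).2 ⟨h5, by omega⟩

theorem closed : ∀ (l : List (ℕ × ℕ)), IsTab K l → ∀ c ∈ l, ∀ c', c' ≤ c → K c' → c' ∈ l := by
  intro l
  induction l with
  | nil => intro _ c hc; simp at hc
  | cons d l ih =>
    intro hd c hc c' hc' hK
    rcases List.mem_cons.1 hc with rfl | hc
    · by_cases he : c' = c
      · rw [he]; exact List.mem_cons_self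
      · exact List.mem_cons_of_mem _ (hd.2.2.2 c' hc' hK he)
    · exact List.mem_cons_of_mem _ (ih hd.1 c hc c' hc' hK)

/-- a cell is addable iff it is at the end of an admissible row -/
theorem addable_iff (l : List (ℕ × ℕ)) (h : IsTab K l) (c : ℕ × ℕ) :
    IsTab K (c :: l) ↔ c.2 = c.1 + row l c.1 ∧ (c.1 = 0 ∨ row l c.1 + 1 < row l (c.1 - 1)) := by
  have hm := mem_iff l h
  constructor
  · rintro ⟨h1, h2, h3, h4⟩
    have h2' : c.1 ≤ c.2 := h2
    have hr : c.1 + row l c.1 = c.2 := by
      apply le_antisymm
      · by_contra hcon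
        exact h3 ((hm c).2 ⟨h2, by omega⟩)
      · rcases Nat.lt_or_ge c.1 c.2 with h0 | h0
        · have := (hm (c.1, c.2 - 1)).1 (h4 _ (Prod.mk_le_mk.2 ⟨le_rfl, by omega⟩)
            (show c.1 ≤ c.2 - 1 by omega)
            (fun h => by have := congrArg Prod.snd h; simp at this; omega))
          have := this.2
          simp only at this
          omega
        · omega
    refine ⟨hr.symm, ?_⟩
    by_cases h0 : c.1 = 0
    · exact Or.inl h0
    · right
      have := (hm (c.1 - 1, c.2)).1 (h4 _ (Prod.mk_le_mk.2 ⟨by omega, le_rfl⟩)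
        (show c.1 - 1 ≤ c.2 by omega)
        (fun h => by have := congrArg Prod.fst h; simp at this; omega))
      have := this.2
      simp only at this
      omega
  · rintro ⟨h2, h3⟩
    refine ⟨h, show c.1 ≤ c.2 by omega, ?_, ?_⟩
    · intro hc
      have := ((hm c).1 hc).2
      omega
    · intro c' hle hK hne
      have hle' : c'.1 ≤ c.1 ∧ c'.2 ≤ c.2 := hle
      have hK' : c'.1 ≤ c'.2 := hK
      by_cases he : c'.1 = c.1
      · have : c'.2 ≠ c.2 := fun h => hne (Prod.ext he h)
        apply (hm c').2
        rw [he]; omega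
      · have h3' := h3.resolve_left (by omega)
        have hin : (c.1 - 1, c.2) ∈ l := (hm _).2 ⟨show c.1 - 1 ≤ c.2 by omega,
          show c.2 < c.1 - 1 + row l (c.1 - 1) by omega⟩
        exact closed l h _ hin c' (Prod.mk_le_mk.2 ⟨by omega, hle'.2⟩) hK

/-- children of a shifted shape given by its row lengths -/
def ch (r : ℕ → ℕ) : Set (ℕ → ℕ) :=
  {r' | ∃ i, (i = 0 ∨ r i + 1 < r (i - 1)) ∧ r' = update r i (r i + 1)}

theorem row_cons_eq (c : ℕ × ℕ) (l : List (ℕ × ℕ)) :
    row (c :: l) = update (row l) c.1 (row l c.1 + 1) := by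
  funext i
  rw [row_cons, update_apply]
  by_cases h : c.1 = i
  · subst h; simp
  · rw [if_neg h, if_neg (fun h' => h h'.symm), add_zero]

/-- valid row-length functions: strict partitions -/
def Valid (r : ℕ → ℕ) : Prop := ∀ i, r (i + 1) = 0 ∨ r (i + 1) < r i

theorem Valid.le {r : ℕ → ℕ} (h : Valid r) (i : ℕ) : r i ≤ r 0 - i := by
  induction i with
  | zero => simp
  | succ n ih =>
    rcases h n with h | h
    · omega
    · omega

theorem Valid.child {r r' : ℕ → ℕ} (h : Valid r) (hr : r' ∈ ch r) : Valid r' := by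
  obtain ⟨i, h1, rfl⟩ := hr
  intro j
  rw [update_apply, update_apply]
  have := h j
  by_cases ha : j + 1 = i
  · subst ha
    rw [if_pos rfl, if_neg (by omega)]
    rcases h1 with h1 | h1
    · omega
    · simp only [Nat.add_sub_cancel] at h1; omega
  · rw [if_neg ha]
    by_cases hb : j = i
    · subst hb; rw [if_pos rfl]; omega
    · rw [if_neg hb]; exact this

/-- the size -/
def sz (r : ℕ → ℕ) : ℕ := ∑ i ∈ Finset.range (r 0 + 1), r i

/-- triangular numbers -/
def T (m : ℕ) : ℕ := ∑ i ∈ Finset.range (m + 1), (m - i)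

theorem T_succ (m : ℕ) : T (m + 1) = T m + (m + 1) := by
  unfold T
  rw [Finset.sum_range_succ']
  simp

/-- the defect -/
def D (r : ℕ → ℕ) : ℕ := T (r 0) - sz r

theorem sum_update {n i : ℕ} (hi : i < n) (r : ℕ → ℕ) :
    ∑ j ∈ Finset.range n, update r i (r i + 1) j = (∑ j ∈ Finset.range n, r j) + 1 := by
  rw [Finset.sum_update_of_mem (Finset.mem_range.2 hi), Finset.sdiff_singleton_eq_erase,
    ← Finset.add_sum_erase _ _ (Finset.mem_range.2 hi)]
  ring

theorem sz_le {r : ℕ → ℕ} (h : Valid r) : sz r ≤ T (r 0) := by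
  unfold sz T
  exact Finset.sum_le_sum (fun i _ => h.le i)

/-- the first-row child -/
def up (r : ℕ → ℕ) : ℕ → ℕ := update r 0 (r 0 + 1)

theorem up_mem (r : ℕ → ℕ) : up r ∈ ch r := ⟨0, Or.inl rfl, rfl⟩

/-- change of the defect for a child -/
theorem D_up {r : ℕ → ℕ} (h : Valid r) : D (up r) = D r + r 0 := by
  unfold D
  have h0 : up r 0 = r 0 + 1 := by simp [up]
  have h1 : sz (up r) = sz r + 1 := by
    unfold sz
    rw [h0]
    unfold up
    rw [sum_update (by omega), Finset.sum_range_succ]
    have := h.le (r 0 + 1)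
    omega
  rw [h0, h1, T_succ]
  have := sz_le h
  omega

theorem D_down {i : ℕ} (hi0 : i ≠ 0) {r : ℕ → ℕ} (h : Valid r)
    (hlt : r i + 1 < r (i - 1)) : D (update r i (r i + 1)) + 1 = D r := by
  have hv : Valid (update r i (r i + 1)) := h.child ⟨i, Or.inr hlt, rfl⟩
  have h0 : update r i (r i + 1) 0 = r 0 := update_of_ne (fun h => hi0 h.symm) _ _
  have hi : i < r 0 + 1 := by
    have := h.le (i - 1)
    omega
  have h1 : sz (update r i (r i + 1)) = sz r + 1 := by
    unfold sz
    rw [h0, sum_update hi]
  unfold D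
  have h2 := sz_le hv
  rw [h0, h1] at h2
  rw [h0, h1]
  omega

theorem D_eq_zero_iff {r : ℕ → ℕ} (h : Valid r) : D r = 0 ↔ ∀ i, r i = r 0 - i := by
  constructor
  · intro h0 i
    unfold D at h0
    have h1 := sz_le h
    by_contra hne
    have hi : i < r 0 + 1 := by
      have := h.le i
      omega
    have h3 : sz r < T (r 0) := by
      unfold sz T
      exact Finset.sum_lt_sum (fun j _ => h.le j) ⟨i, Finset.mem_range.2 hi,
        lt_of_le_of_ne (h.le i) hne⟩
    omega
  · intro h0
    unfold D sz T
    have : ∑ i ∈ Finset.range (r 0 + 1), r i = ∑ i ∈ Finset.range (r 0 + 1), (r 0 - i) :=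
      Finset.sum_congr rfl (fun i _ => h0 i)
    rw [this]
    simp

theorem exists_down {r : ℕ → ℕ} (h : Valid r) (hD : D r ≠ 0) :
    ∃ i, i ≠ 0 ∧ r i + 1 < r (i - 1) := by
  by_contra hcon
  push Not at hcon
  apply hD
  rw [D_eq_zero_iff h]
  intro i
  induction i with
  | zero => simp
  | succ i ih =>
    have h1 := hcon (i + 1) (by omega)
    simp only [Nat.add_sub_cancel] at h1
    have h2 := h i
    omega

theorem update_inj {r : ℕ → ℕ} {i j : ℕ} (h : update r i (r i + 1) = update r j (r j + 1)) :
    i = j := by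
  by_contra hne
  have := congrFun h i
  rw [update_self, update_of_ne hne] at this
  omega

theorem D_le : ∀ (n : ℕ) (x y : ℕ → ℕ), Valid x → Valid y → D x = n → Bis ch x y → D y ≤ n := by
  intro n
  induction n with
  | zero =>
    intro x y hx hy hD hB
    by_contra hcon
    obtain ⟨i, hi0, hlt⟩ := exists_down hy (by omega)
    obtain ⟨σ, _⟩ := hB.step
    have hsub : ∀ a b : ch x, a = b := by
      rintro ⟨a, ia, ha, rfl⟩ ⟨b, ib, hb, rfl⟩
      have hxc := (D_eq_zero_iff hx).1 hD
      have ha0 : ia = 0 := by
        rcases ha with ha | ha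
        · exact ha
        · rw [hxc ia, hxc (ia - 1)] at ha
          omega
      have hb0 : ib = 0 := by
        rcases hb with hb | hb
        · exact hb
        · rw [hxc ib, hxc (ib - 1)] at hb
          omega
      subst ha0; subst hb0; rfl
    have h1 : (⟨up y, up_mem y⟩ : ch y) = ⟨update y i (y i + 1), i, Or.inr hlt, rfl⟩ := by
      rw [← σ.apply_symm_apply ⟨up y, up_mem y⟩,
        ← σ.apply_symm_apply ⟨update y i (y i + 1), i, Or.inr hlt, rfl⟩]
      rw [hsub (σ.symm ⟨up y, up_mem y⟩) (σ.symm ⟨update y i (y i + 1), i, Or.inr hlt, rfl⟩)]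
    have h2 := update_inj (congrArg Subtype.val h1)
    omega
  | succ n ih =>
    intro x y hx hy hD hB
    obtain ⟨i, hi0, hlt⟩ := exists_down hx (by omega)
    have hc := D_down hi0 hx hlt
    obtain ⟨σ, hσ⟩ := hB.step
    have hx' : Valid (update x i (x i + 1)) := hx.child ⟨i, Or.inr hlt, rfl⟩
    set c : ch x := ⟨update x i (x i + 1), i, Or.inr hlt, rfl⟩ with hcdef
    have hy' : Valid (σ c) := hy.child (σ c).2
    have h1 := ih _ _ hx' hy' (by omega) (hσ c)
    obtain ⟨j, hjj, he⟩ := (σ c).2
    have h2 : D y ≤ D (σ c : ℕ → ℕ) + 1 := by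
      rw [he]
      by_cases hj0 : j = 0
      · subst hj0
        have := D_up hy
        unfold up at this
        rw [this]; omega
      · have := D_down hj0 hy (hjj.resolve_left hj0)
        omega
    omega

theorem D_eq {x y : ℕ → ℕ} (hx : Valid x) (hy : Valid y) (hB : Bis ch x y) : D x = D y :=
  le_antisymm (D_le _ y x hy hx rfl hB.symm) (D_le _ x y hx hy rfl hB)

/-- a bisimulation matches first-row children with first-row children -/
theorem match_up {x y : ℕ → ℕ} (hx : Valid x) (hy : Valid y)
    (hB : Bis ch x y) (σ : ch x ≃ ch y) (hσ : ∀ c : ch x, Bis ch c (σ c))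
    (c : ch x) : (c : ℕ → ℕ) = up x ↔ (σ c : ℕ → ℕ) = up y := by
  have hD := D_eq hx hy hB
  have h1 := D_eq (hx.child c.2) (hy.child (σ c).2) (hσ c)
  have key : ∀ {z : ℕ → ℕ} (_ : Valid z) (w : ℕ → ℕ), w ∈ ch z →
      (w = up z ↔ D z ≤ D w) := by
    rintro z hz w ⟨i, hii, rfl⟩
    constructor
    · intro h
      rw [h, D_up hz]; omega
    · intro h
      by_cases hi0 : i = 0
      · subst hi0; rfl
      · have := D_down hi0 hz (hii.resolve_left hi0)
        omega
  rw [key hx c c.2, key hy (σ c) (σ c).2, h1, hD]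

theorem first_eq {x y : ℕ → ℕ} (hx : Valid x) (hy : Valid y) (hB : Bis ch x y) : x 0 = y 0 := by
  obtain ⟨σ, hσ⟩ := hB.step
  have hu := (match_up hx hy hB σ hσ ⟨up x, up_mem x⟩).1 rfl
  have b := hσ ⟨up x, up_mem x⟩
  rw [hu] at b
  have b' : Bis ch (up x) (up y) := b
  have h1 := D_eq (hx.child (up_mem x)) (hy.child (up_mem y)) b'
  rw [D_up hx, D_up hy, D_eq hx hy hB] at h1
  omega

/-- the exceptional shapes: `{1,…,N+1}` without `3` and `N+1-t` -/
def A (N t : ℕ) (i : ℕ) : ℕ :=
  if i < t then N + 1 - i else if i + 4 ≤ N then N - i else N - 1 - i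

/-- the exceptional shapes: `{1,…,N+1}` without `1`, `2` and `N+1-t` -/
def B (N t : ℕ) (i : ℕ) : ℕ :=
  if i < t then N + 1 - i else if i + 3 ≤ N then N - i else 0

theorem A_valid {N t : ℕ} (ht : t + 3 ≤ N) : Valid (A N t) := by
  intro i
  unfold A
  split_ifs <;> omega

theorem B_valid {N t : ℕ} (ht : t + 3 ≤ N) : Valid (B N t) := by
  intro i
  unfold B
  split_ifs <;> omega

theorem no_bis (N : ℕ) : ∀ (m t : ℕ), 1 ≤ t → t + 3 + m = N → ¬ Bis ch (A N t) (B N t) := by
  intro m
  induction m with
  | zero =>
    intro t ht1 ht2 hB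
    obtain ⟨σ, hσ⟩ := hB.symm.step
    -- three children against two
    have m0 : up (B N t) ∈ ch (B N t) := up_mem _
    have m1 : update (B N t) t (B N t t + 1) ∈ ch (B N t) := by
      refine ⟨t, Or.inr ?_, rfl⟩
      unfold B
      split_ifs <;> omega
    have m2 : update (B N t) (t + 1) (B N t (t + 1) + 1) ∈ ch (B N t) := by
      refine ⟨t + 1, Or.inr ?_, rfl⟩
      unfold B
      split_ifs <;> omega
    have hAch : ∀ w ∈ ch (A N t), w = up (A N t) ∨ w = update (A N t) t (A N t t + 1) := by
      rintro w ⟨i, hii, rfl⟩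
      by_cases hi0 : i = 0
      · left; subst hi0; rfl
      · right
        have h1 := hii.resolve_left hi0
        have : i = t := by
          unfold A at h1
          split_ifs at h1 <;> omega
        rw [this]
    have d01 : (⟨_, m0⟩ : ch (B N t)) ≠ ⟨_, m1⟩ := by
      intro h
      have := update_inj (congrArg Subtype.val h)
      omega
    have d02 : (⟨_, m0⟩ : ch (B N t)) ≠ ⟨_, m2⟩ := by
      intro h
      have := update_inj (congrArg Subtype.val h)
      omega
    have d12 : (⟨_, m1⟩ : ch (B N t)) ≠ ⟨_, m2⟩ := by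
      intro h
      have := update_inj (congrArg Subtype.val h)
      omega
    have e01 := fun h => d01 (σ.injective h)
    have e02 := fun h => d02 (σ.injective h)
    have e12 := fun h => d12 (σ.injective h)
    have f0 := hAch _ (σ ⟨_, m0⟩).2
    have f1 := hAch _ (σ ⟨_, m1⟩).2
    have f2 := hAch _ (σ ⟨_, m2⟩).2
    rcases f0 with f0 | f0 <;> rcases f1 with f1 | f1 <;> rcases f2 with f2 | f2 <;>
    first
    | exact e01 (Subtype.ext (f0.trans f1.symm))
    | exact e02 (Subtype.ext (f0.trans f2.symm))
    | exact e12 (Subtype.ext (f1.trans f2.symm))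
  | succ m ih =>
    intro t ht1 ht2 hB
    have hAv : Valid (A N t) := A_valid (by omega)
    have hBv : Valid (B N t) := B_valid (by omega)
    obtain ⟨σ, hσ⟩ := hB.step
    have eA1 : update (A N t) t (A N t t + 1) = A N (t + 1) := by
      funext i
      rw [update_apply]
      unfold A
      split_ifs <;> omega
    have mA1 : A N (t + 1) ∈ ch (A N t) := by
      rw [← eA1]
      refine ⟨t, Or.inr ?_, rfl⟩
      unfold A
      split_ifs <;> omega
    have mA2 : update (A N t) (N - 3) (A N t (N - 3) + 1) ∈ ch (A N t) := by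
      refine ⟨N - 3, Or.inr ?_, rfl⟩
      unfold A
      split_ifs <;> omega
    have eC : update (A N t) (N - 3) (A N t (N - 3) + 1) =
        update (B N t) (N - 2) (B N t (N - 2) + 1) := by
      funext i
      rw [update_apply, update_apply]
      unfold A B
      split_ifs <;> omega
    have eB1 : update (B N t) t (B N t t + 1) = B N (t + 1) := by
      funext i
      rw [update_apply]
      unfold B
      split_ifs <;> omega
    have hBch : ∀ w ∈ ch (B N t), w = up (B N t) ∨ w = B N (t + 1) ∨
        w = update (A N t) (N - 3) (A N t (N - 3) + 1) := by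
      rintro w ⟨i, hii, rfl⟩
      by_cases hi0 : i = 0
      · left; subst hi0; rfl
      · right
        have h1 := hii.resolve_left hi0
        have : i = t ∨ i = N - 2 := by
          unfold B at h1
          split_ifs at h1 <;> omega
        rcases this with rfl | rfl
        · left; exact eB1
        · right; exact eC.symm
    have nup1 : A N (t + 1) ≠ up (A N t) := by
      rw [← eA1]
      intro h
      have := update_inj h
      omega
    have nup2 : update (A N t) (N - 3) (A N t (N - 3) + 1) ≠ up (A N t) := by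
      intro h
      have := update_inj h
      omega
    have n12 : A N (t + 1) ≠ update (A N t) (N - 3) (A N t (N - 3) + 1) := by
      rw [← eA1]
      intro h
      have := update_inj h
      omega
    have u1 := (match_up hAv hBv hB σ hσ ⟨_, mA1⟩).not.1 nup1
    have u2 := (match_up hAv hBv hB σ hσ ⟨_, mA2⟩).not.1 nup2
    have b1 := hσ ⟨_, mA1⟩
    have b2 := hσ ⟨_, mA2⟩
    rcases (hBch _ (σ ⟨_, mA1⟩).2).resolve_left u1 with h1 | h1
    · rw [h1] at b1
      exact ih (t + 1) (by omega) (by omega) b1
    · rcases (hBch _ (σ ⟨_, mA2⟩).2).resolve_left u2 with h2 | h2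
      · rw [h1] at b1
        rw [h2] at b2
        exact ih (t + 1) (by omega) (by omega) (b1.trans b2)
      · have : σ ⟨_, mA1⟩ = σ ⟨_, mA2⟩ := Subtype.ext (h1.trans h2.symm)
        exact n12 (congrArg Subtype.val (σ.injective this))

/-- the exceptional configuration is impossible -/
theorem exceptional {x y : ℕ → ℕ} (hx : Valid x) (hy : Valid y) (hB : Bis ch x y) (N : ℕ)
    (hN : 4 ≤ N)
    (h1 : ∀ i, x i = if i + 4 ≤ N then N - i else N - 1 - i)
    (h2 : ∀ i, y i = if i + 3 ≤ N then N - i else 0) : False := by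
  obtain ⟨σ, hσ⟩ := hB.step
  have hu := (match_up hx hy hB σ hσ ⟨up x, up_mem x⟩).1 rfl
  have b := hσ ⟨up x, up_mem x⟩
  rw [hu] at b
  have b' : Bis ch (up x) (up y) := b
  have e1 : up x = A N 1 := by
    funext i
    unfold up A
    rw [update_apply, h1 i, h1 0]
    split_ifs <;> omega
  have e2 : up y = B N 1 := by
    funext i
    unfold up B
    rw [update_apply, h2 i, h2 0]
    split_ifs <;> omega
  rw [e1, e2] at b'
  exact no_bis N (N - 4) 1 le_rfl (by omega) b'

theorem stair_between {x : ℕ → ℕ} (hx : Valid x) {i : ℕ}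
    (huniq : ∀ j, j ≠ 0 → x j + 1 < x (j - 1) → j = i) :
    ∀ a b, a ≤ b → (b < i ∨ i ≤ a) → x b = x a - (b - a) := by
  intro a b hab
  induction b, hab using Nat.le_induction with
  | base => intro _; simp
  | succ n hn ih =>
    intro h
    have h1 := ih (by omega)
    have h2 := hx n
    have h3 : ¬ (x (n + 1) + 1 < x n) := by
      intro hlt
      have := huniq (n + 1) (by omega) (by simpa using hlt)
      omega
    omega

theorem main : ∀ (n : ℕ) (x y : ℕ → ℕ), Valid x → Valid y → Bis ch x y → D x = n → x = y := by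
  intro n
  induction n with
  | zero =>
    intro x y hx hy hB hD
    have hDy : D y = 0 := by rw [← D_eq hx hy hB, hD]
    have hx0 := (D_eq_zero_iff hx).1 hD
    have hy0 := (D_eq_zero_iff hy).1 hDy
    have h0 := first_eq hx hy hB
    funext i
    rw [hx0 i, hy0 i, h0]
  | succ n ih =>
    intro x y hx hy hB hD
    have hDy : D y = n + 1 := by rw [← D_eq hx hy hB, hD]
    have h0 := first_eq hx hy hB
    obtain ⟨σ, hσ⟩ := hB.step
    have key : ∀ {x y : ℕ → ℕ}, Valid x → Valid y → Bis ch x y →
        D x = n + 1 → ∀ (σ : ch x ≃ ch y), (∀ c : ch x, Bis ch c (σ c)) →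
        ∀ i, i ≠ 0 → x i + 1 < x (i - 1) →
        ∃ j, j ≠ 0 ∧ y j + 1 < y (j - 1) ∧
          update x i (x i + 1) = update y j (y j + 1) := by
      intro x y hx hy hB hD σ hσ i hi0 hlt
      have hm : update x i (x i + 1) ∈ ch x := ⟨i, Or.inr hlt, rfl⟩
      have hDc := D_down hi0 hx hlt
      have hnup : update x i (x i + 1) ≠ up x := by
        intro h
        exact hi0 (update_inj h)
      have hnup2 := (match_up hx hy hB σ hσ ⟨_, hm⟩).not.1 hnup
      obtain ⟨j, hjj, he⟩ := (σ ⟨_, hm⟩).2
      have hj0 : j ≠ 0 := by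
        rintro rfl
        exact hnup2 he
      have hlt2 := hjj.resolve_left hj0
      refine ⟨j, hj0, hlt2, ?_⟩
      have hb := hσ ⟨_, hm⟩
      rw [he] at hb
      exact ih _ _ (hx.child hm) (hy.child ⟨j, hjj, rfl⟩) hb (by
        show D (update x i (x i + 1)) = n
        omega)
    obtain ⟨i, hi0, hlt⟩ := exists_down hx (by omega)
    obtain ⟨i', hi0', hlt', heq⟩ := key hx hy hB hD σ hσ i hi0 hlt
    by_cases hii : i = i'
    · subst hii
      funext a
      have := congrFun heq a
      rw [update_apply, update_apply] at this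
      split_ifs at this with h
      · subst h; omega
      · exact this
    · exfalso
      have hsymm : ∀ c : ch y, Bis ch c (σ.symm c) := by
        intro c
        have := hσ (σ.symm c)
        rw [σ.apply_symm_apply] at this
        exact this.symm
      have pw : ∀ a, (if a = i then x a + 1 else x a) = (if a = i' then y a + 1 else y a) := by
        intro a
        have := congrFun heq a
        rw [update_apply, update_apply] at this
        split_ifs at this ⊢ with h1 h2 h2 <;> subst_vars <;> omega
      have hux : ∀ j, j ≠ 0 → x j + 1 < x (j - 1) → j = i := by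
        intro j hj0 hjlt
        obtain ⟨j', _, _, hje⟩ := key hx hy hB hD σ hσ j hj0 hjlt
        by_contra hne
        have a1 := pw i
        rw [if_pos rfl, if_neg hii] at a1
        have a2 := congrFun hje i
        rw [update_of_ne (fun h => hne h.symm), update_apply] at a2
        split_ifs at a2 with h
        · subst h; omega
        · omega
      have huy : ∀ j, j ≠ 0 → y j + 1 < y (j - 1) → j = i' := by
        intro j hj0 hjlt
        obtain ⟨j', _, _, hje⟩ := key hy hx hB.symm hDy σ.symm hsymm j hj0 hjlt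
        by_contra hne
        have a1 := pw i'
        rw [if_neg (fun h => hii h.symm), if_pos rfl] at a1
        have a2 := congrFun hje i'
        rw [update_of_ne (fun h => hne h.symm), update_apply] at a2
        split_ifs at a2 with h
        · subst h; omega
        · omega
      have cx := stair_between hx hux
      have cy := stair_between hy huy
      have last : ∀ {x y : ℕ → ℕ} {i i' : ℕ}, Valid x → Valid y → Bis ch x y →
          x 0 = y 0 → i ≠ 0 → i' ≠ 0 → i < i' →
          x i + 1 < x (i - 1) → y i' + 1 < y (i' - 1) →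
          (∀ a, (if a = i then x a + 1 else x a) = (if a = i' then y a + 1 else y a)) →
          (∀ a b, a ≤ b → (b < i ∨ i ≤ a) → x b = x a - (b - a)) →
          (∀ a b, a ≤ b → (b < i' ∨ i' ≤ a) → y b = y a - (b - a)) → False := by
        intro x y i i' hx hy hB h0 hi0 hi0' hlt hxlt hylt pw cx cy
        have x1 : x (i - 1) = x 0 - (i - 1 - 0) := cx 0 (i - 1) (by omega) (by omega)
        have y1 : y i = y 0 - (i - 0) := cy 0 i (by omega) (by omega)
        have y1' : y (i' - 1) = y 0 - (i' - 1 - 0) := cy 0 (i' - 1) (by omega) (by omega)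
        have p1 := pw i
        rw [if_pos rfl, if_neg (by omega)] at p1
        have x2 : x i' = x i - (i' - i) := cx i i' (by omega) (by omega)
        have p2 := pw i'
        rw [if_neg (by omega), if_pos rfl] at p2
        have p3 := pw (i' + 1)
        rw [if_neg (by omega), if_neg (by omega)] at p3
        have x3 : x (i' + 1) = x i - (i' + 1 - i) := cx i (i' + 1) (by omega) (by omega)
        have y3 : y (i' + 1) = y i' - (i' + 1 - i') := cy i' (i' + 1) (by omega) (by omega)
        have e1 : y i' = 0 := by omega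
        have e2 : i + 1 = i' := by
          by_contra hne
          have p4 := pw (i + 1)
          rw [if_neg (by omega), if_neg (by omega)] at p4
          have x4 : x (i + 1) = x i - (i + 1 - i) := cx i (i + 1) (by omega) (by omega)
          have y4 : y (i + 1) = y 0 - (i + 1 - 0) := cy 0 (i + 1) (by omega) (by omega)
          omega
        have e3 : y 0 = i' + 2 := by omega
        refine exceptional hx hy hB (y 0) (by omega) ?_ ?_
        · intro a
          split_ifs with h
          · have := cx 0 a (by omega) (by omega)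
            omega
          · have := cx i a (by omega) (by omega)
            omega
        · intro a
          split_ifs with h
          · have := cy 0 a (by omega) (by omega)
            omega
          · have := cy i' a (by omega) (by omega)
            omega
      rcases Nat.lt_or_gt_of_ne hii with hlt3 | hlt3
      · exact last hx hy hB h0 hi0 hi0' hlt3 hlt hlt' pw cx cy
      · exact last hy hx hB.symm h0.symm hi0' hi0 hlt3 hlt' hlt (fun a => (pw a).symm) cy cx

theorem row_valid (l : List (ℕ × ℕ)) (h : IsTab K l) : Valid (row l) := by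
  induction l with
  | nil => exact fun i => Or.inl (by simp [row])
  | cons c l ih =>
    have h1 := (addable_iff l h.1 c).1 h
    rw [row_cons_eq]
    exact (ih h.1).child ⟨c.1, h1.2, rfl⟩

/-- **Main theorem.** The identity is the only automorphism of the (unlabelled) tree of shifted
standard Young tableaux. -/
theorem result (φ : tabTree (fun c => c.1 ≤ c.2) ≃g tabTree (fun c => c.1 ≤ c.2)) :
    φ = RelIso.refl _ := by
  apply rigid ch row
  · intro c c' h h'
    have h1 := (addable_iff [] trivial c).1 h
    have h2 := (addable_iff [] trivial c').1 h'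
    simp only [row, List.countP_nil, Nat.not_lt_zero, or_false, Nat.add_zero] at h1 h2
    exact Prod.ext (by omega) (by omega)
  · intro c l h
    exact ⟨(0, 0 + row (c :: l) 0), (addable_iff _ h _).2 ⟨rfl, Or.inl rfl⟩⟩
  · intro l h c hc
    have h1 := (addable_iff l h c).1 hc
    rw [row_cons_eq]
    exact ⟨c.1, h1.2, rfl⟩
  · intro l c c' h h' he
    have h1 := (addable_iff l h.1 c).1 h
    have h2 := (addable_iff l h.1 c').1 h'
    rw [row_cons_eq, row_cons_eq] at he
    have := update_inj he
    apply Prod.ext this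
    rw [h1.1, h2.1, this]
  · rintro l h p ⟨i, hii, rfl⟩
    exact ⟨(i, i + row l i), (addable_iff l h _).2 ⟨rfl, hii⟩, row_cons_eq _ _⟩
  · intro l l' h h' _ hB
    exact main _ _ _ (row_valid l h) (row_valid l' h') hB rfl

end Pool.Agent.Results.MP_c76eb3_co.ShiftedRigid
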